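import Mathlib

set_option autoImplicit false

namespace Pool.Agent.TH254.Dil

open Finset

/-- Abstract form of a dilation of a commuting triple of stochastic matrices on the finite set `X`. -/
structure Sys (R X : Type*) [Ring R] [StarRing R] [Algebra ℂ R] [Fintype X] [DecidableEq X] where
  θ : (Fin 3 → ℕ) → (R →⋆ₙₐ[ℂ] R)
  e : X → R
  P : (Fin 3 → ℕ) → X → X → ℂ
  add : ∀ s t x, θ (s + t) x = θ s (θ t x)
  idem : ∀ x, e x * e x = e x
  self : ∀ x, star (e x) = e x
  corner : ∀ s x x' y, e x * θ s (e y) * e x' = if x = x' then P s x y • e x else 0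
  unit : ∀ s x, θ s (∑ y, e y) * e x = e x
  cstar : ∀ a : R, star a * a = 0 → a = 0

variable {R X : Type*} [Ring R] [StarRing R] [Algebra ℂ R] [Fintype X] [DecidableEq X]

namespace Sys

variable (S : Sys R X)

theorem idem' (s : Fin 3 → ℕ) (x : X) : S.θ s (S.e x) * S.θ s (S.e x) = S.θ s (S.e x) := by
  rw [← map_mul, S.idem]

theorem self' (s : Fin 3 → ℕ) (x : X) : star (S.θ s (S.e x)) = S.θ s (S.e x) := by
  rw [← map_star, S.self]

/-- the inner product of two words -/
theorem inner_word (s t : Fin 3 → ℕ) (x y y' z : X) :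
    star (S.θ (s + t) (S.e z) * (S.θ s (S.e y') * S.e x)) *
      (S.θ (s + t) (S.e z) * (S.θ s (S.e y) * S.e x)) =
      if y' = y then (S.P t y' z * S.P s x y') • S.e x else 0 := by
  have h1 : star (S.θ (s + t) (S.e z) * (S.θ s (S.e y') * S.e x)) *
      (S.θ (s + t) (S.e z) * (S.θ s (S.e y) * S.e x)) =
      S.e x * S.θ s (S.e y' * S.θ t (S.e z) * S.e y) * S.e x := by
    rw [star_mul, star_mul, S.self, S.self', S.self', map_mul, map_mul, ← S.add]
    have h2 := S.idem' (s + t) z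
    calc S.e x * S.θ s (S.e y') * S.θ (s + t) (S.e z) *
          (S.θ (s + t) (S.e z) * (S.θ s (S.e y) * S.e x))
        = S.e x * S.θ s (S.e y') * (S.θ (s + t) (S.e z) * S.θ (s + t) (S.e z)) *
          (S.θ s (S.e y) * S.e x) := by simp only [mul_assoc]
      _ = _ := by rw [h2]; simp only [mul_assoc]
  rw [h1, S.corner]
  split_ifs with h
  · rw [map_smul, mul_smul_comm, smul_mul_assoc, S.corner, if_pos rfl, smul_smul]
  · simp

theorem word_zero (s t : Fin 3 → ℕ) (x y z : X) (h : S.P s x y * S.P t y z = 0) :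
    S.θ (s + t) (S.e z) * (S.θ s (S.e y) * S.e x) = 0 := by
  apply S.cstar
  rw [S.inner_word, if_pos rfl, mul_comm, h, zero_smul]

/-- insertion of the unique intermediate point -/
theorem insert (s t : Fin 3 → ℕ) (x y z : X) (h : ∀ y', y' ≠ y → S.P s x y' * S.P t y' z = 0) :
    S.θ (s + t) (S.e z) * S.e x = S.θ (s + t) (S.e z) * (S.θ s (S.e y) * S.e x) := by
  conv_lhs => rw [← S.unit s x]
  rw [map_sum, Finset.sum_mul, Finset.mul_sum]
  rw [Finset.sum_eq_single y]
  · intro y' _ hy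
    exact S.word_zero s t x y' z (h y' hy)
  · intro h; exact absurd (Finset.mem_univ _) h

/-- the link of the chain -/
theorem link (i j k : Fin 3 → ℕ) (x a b w : X)
    (h1 : ∀ a', a' ≠ a → S.P i x a' * S.P j a' b = 0)
    (h2 : ∀ b', b' ≠ b → S.P j a b' * S.P k b' w = 0) :
    S.θ (i + j + k) (S.e w) * (S.θ i (S.e a) * S.e x) =
      S.θ (i + j + k) (S.e w) * (S.θ (i + j) (S.e b) * S.e x) := by
  rw [S.insert i j x a b h1]
  have h3 := congrArg (S.θ i) (S.insert j k a b w h2)
  rw [map_mul, map_mul, map_mul, ← S.add, ← S.add, ← add_assoc] at h3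
  calc S.θ (i + j + k) (S.e w) * (S.θ i (S.e a) * S.e x)
      = (S.θ (i + j + k) (S.e w) * S.θ i (S.e a)) * S.e x := by rw [mul_assoc]
    _ = _ := by rw [h3]; simp only [mul_assoc]

theorem final (i j : Fin 3 → ℕ) (x a a' w : X) (haa : a ≠ a')
    (h : S.θ (i + j) (S.e w) * (S.θ i (S.e a) * S.e x) =
      S.θ (i + j) (S.e w) * (S.θ i (S.e a') * S.e x)) :
    (S.P j a w * S.P i x a) • S.e x = 0 := by
  have h1 := S.inner_word i j x a a w
  rw [if_pos rfl] at h1
  have h2 := S.inner_word i j x a' a w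
  rw [if_neg haa, ← h] at h2
  rw [← h1, h2]

end Sys

end Pool.Agent.TH254.Dil
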